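import Pool.Agent.Y820.LT.F3
import Pool.Agent.Y820.LT.D
import Pool.Agent.Y820.LT.R
import Pool.Agent.Y820.LT.P
import Pool.Agent.Y820.LT.SB

/-!
# The Hardy-Littlewood formula for prime tuples after adding a bounded number of powers of `b` to the shifts

A theorem of the type of Linnik (every large even integer is the sum of two primes and of a bounded
number of powers of `2`) for prime tuples: every admissible tuple `0, h 1, ..., h s` with
`h i ≤ B X` satisfies the asymptotic formula of Hardy and Littlewood, with a relative error of at most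
`ε` and for all `N` between `X / m` and `X`, after at most `K` powers of `b` have been added to every
shift, where `K` depends on `b, s, B, m, ε` alone.  The powers can be the same for all the tuples of an
arbitrary (large or small, sparse or dense) family `T`, up to a proportion `ρ` of its members.

Method: the average over random sets of exponents in windows of the digits of a correlation sum, a
second moment for each factor of the product by the inequality of Cauchy and Schwarz for two Gram
matrices, Vaughan's identity and the sieve.  Libraries: W93, TH892, TH894, H373R2, H560R3 (starting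
files), Y820 (helper820, helper484).
-/

set_option autoImplicit false

namespace Pool.Agent.Results.MP_e87c7d_nt.BoundedlyManyPowers

open Finset Filter

/-- The number of primes `p ≤ N` for which all `p + a i` are primes. -/
def count {s : ℕ} (a : Fin s → ℕ) (N : ℕ) : ℕ :=
  ((Icc 1 N).filter (fun p : ℕ => p.Prime ∧ ∀ i, (p + a i).Prime)).card

/-- The number `ν(p)` of the residues `r` modulo `p` for which `p` divides `r (r + a 1) ... (r + a s)`. -/
def nu {s : ℕ} (a : Fin s → ℕ) (p : ℕ) : ℕ := ((range p).filter (fun r => p ∣ r ∨ ∃ i, p ∣ r + a i)).card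

/-- The tuple `0, a 1, ..., a s` is admissible: `ν(p) < p` for all primes `p`. -/
def Adm {s : ℕ} (a : Fin s → ℕ) : Prop := ∀ p : ℕ, p.Prime → nu a p < p

/-- The partial products `∏_{p ≤ z} (1 - ν(p) / p) / (1 - 1 / p) ^ (s + 1)` of the singular series. -/
noncomputable def sing {s : ℕ} (a : Fin s → ℕ) (z : ℕ) : ℝ :=
  ∏ p ∈ (Icc 1 z).filter Nat.Prime, (1 - (nu a p : ℝ) / p) / (1 - 1 / (p : ℝ)) ^ (s + 1)

/-- The tuple `0, a 1, ..., a s` is admissible, and the formula of Hardy and Littlewood holds for it with a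
relative error of at most `ε`, for all `N` between `X / m` and `X`: the partial products of the singular
series converge to some `G > 0`, and `count a N` is `G N / log ^ (s + 1) N` up to the factor `1 ± ε`. -/
def Formula {s : ℕ} (ε : ℝ) (m X : ℕ) (a : Fin s → ℕ) : Prop :=
  Adm a ∧ ∃ G : ℝ, 0 < G ∧ Tendsto (sing a) atTop (nhds G) ∧ ∀ N : ℕ, N ≤ X → X ≤ m * N →
    |(count a N : ℝ) - G * (N / Real.log N ^ (s + 1))| ≤ ε * (G * (N / Real.log N ^ (s + 1)))

lemma nu_eq {s : ℕ} (a : Fin s → ℕ) (p : ℕ) : Pool.Agent.H373R2.T7.nuP (fun i => (a i : ℤ)) p = nu a p := by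
  unfold Pool.Agent.H373R2.T7.nuP nu
  congr 1
  apply filter_congr
  intro r _
  have : ∀ i, ((p : ℤ) ∣ (r : ℤ) + (a i : ℤ)) ↔ p ∣ r + a i := by
    intro i
    rw [← Int.natCast_add, Int.natCast_dvd_natCast]
  simp only [this]

lemma sing_eq {s : ℕ} (a : Fin s → ℕ) : (fun z => Pool.Agent.H373R2.T7.singZ (fun i => (a i : ℤ)) z) = sing a := by
  funext z
  unfold Pool.Agent.H373R2.T7.singZ sing
  apply prod_congr rfl
  intro p _
  rw [nu_eq]

lemma adm_iff {s : ℕ} (a : Fin s → ℕ) : Pool.Agent.H373R2.T7.Admissible (fun i => (a i : ℤ)) ↔ Adm a := by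
  constructor
  · intro h p hp
    have := Pool.Agent.H373R2.T7.nuP_adm _ h p hp
    rw [nu_eq] at this
    omega
  · intro h p hp
    have h1 := h p hp
    unfold nu at h1
    obtain ⟨r, hr, hr2⟩ := exists_mem_notMem_of_card_lt_card (s := (range p).filter (fun r => p ∣ r ∨ ∃ i, p ∣ r + a i)) (t := range p)
      (by rw [card_range]; exact h1)
    have h2 : ¬ (p ∣ r ∨ ∃ i, p ∣ r + a i) := fun h3 => hr2 (mem_filter.2 ⟨hr, h3⟩)
    push Not at h2
    refine ⟨r, fun hd => h2.1 (Int.natCast_dvd_natCast.1 hd), fun i hd => h2.2 i ?_⟩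
    rw [← Int.natCast_add, Int.natCast_dvd_natCast] at hd
    exact hd

/-- For all `b ≥ 2`, `s ≥ 1`, `B`, `m ≥ 1` and `ε, ρ > 0` there are `K` and `X₀` with the following property. Let
`X ≥ X₀` and let `T` be an ARBITRARY finite set of admissible tuples `h` with `0 ≤ h i ≤ B X`. There are sets
`S 1, ..., S s` of at most `K` exponents each, with `b ^ ν ≤ (B + 1) X` for the exponents `ν`, such that for
all but at most `ρ |T|` of the tuples `h` in `T` (in particular for all of them if `ρ |T| < 1`) the tuple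
`a i = h i + ∑_{ν ∈ S i} b ^ ν` is admissible and satisfies the formula of Hardy and Littlewood with a relative
error of at most `ε` for all `N` between `X / m` and `X`. -/
theorem result (b s B m : ℕ) (hb : 2 ≤ b) (hs : 1 ≤ s) (hm : 1 ≤ m) (ε ρ : ℝ) (hε : 0 < ε) (hρ : 0 < ρ) :
    ∃ K X₀ : ℕ, ∀ X : ℕ, X₀ ≤ X → ∀ T : Finset (Fin s → ℕ), (∀ h ∈ T, Adm h ∧ ∀ i, h i ≤ B * X) →
      ∃ S : Fin s → Finset ℕ, (∀ i, (S i).card ≤ K ∧ ∀ ν ∈ S i, b ^ ν ≤ (B + 1) * X) ∧
        ∃ E ⊆ T, (E.card : ℝ) ≤ ρ * T.card ∧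
          ∀ h ∈ T, h ∉ E → Formula ε m X (fun i => h i + ∑ ν ∈ S i, b ^ ν) := by
  obtain ⟨K, X₀, hmain⟩ := Pool.Agent.Y820.LT.main_range3 Pool.Agent.Y820.LT.t_D Pool.Agent.Y820.LT.t_R Pool.Agent.Y820.LT.t_SB
    Pool.Agent.Y820.LT.t_P b hb s hs B m hm ε ρ hε hρ
  refine ⟨K, X₀, fun X hX T hT => ?_⟩
  obtain ⟨S, hS1, hS2, E, hET, hEc, hE⟩ := hmain X hX T (fun h hh => (hT h hh).2) (fun h hh => (adm_iff h).2 (hT h hh).1)
  refine ⟨S, fun i => ⟨hS1 i, hS2 i⟩, E, hET, hEc, fun h hh hhE => ?_⟩
  obtain ⟨h1, G, hG0, hG1, hG2⟩ := hE h hh hhE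
  refine ⟨(adm_iff _).1 h1, G, hG0, ?_, hG2⟩
  rw [← sing_eq]
  exact hG1

end Pool.Agent.Results.MP_e87c7d_nt.BoundedlyManyPowers
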