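import Pool.Agent.Y885.TU3

/-!
# The prime tuples conjecture up to very few elements of arbitrary sets which meet every interval `[x, l x]`

Definitions used: `Pool.Agent.H373R2.T7.singZ a z`: the partial product over the primes `p ≤ z` of
`(1 - ν(p) / p) / (1 - 1 / p) ^ (s + 1)`, where `ν(p)` is the number of `r < p` for which `p` divides
`r (r + a 1) ... (r + a s)`; `Pool.Agent.H373R2.T7.tupleCount a N`: the sum of
`log p * ∏ i, log (p + a i)` over the primes `p ≤ N` for which all `p + a i` are primes;
`Pool.Agent.H373R2.T7.Admissible a`: for every prime `p` there is an `r` such that `p` divides neither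
`r` nor any `r + a i`; `Pool.Agent.H560R3.GB.primeTuples a N`: the number of primes `p ≤ N` for which
all `p + a i` are primes.
-/

set_option autoImplicit false

namespace Pool.Agent.Results.MP_e87c7d_nt.ElementsOfAnySets

open Finset Pool.Agent.H560R3.GB
open Pool.Agent.H373R2.T7 (singZ tupleCount Admissible)

/-- The formula of Hardy and Littlewood for the tuple `p, p + a 1, ..., p + a s` and the primes `p ≤ N`: the
singular series converges, its sum `S` predicts the weighted number of prime tuples with an error of
at most `N / log ^ U N`, and, if the shifts are admissible, `S` is positive and `S N / log ^ (s + 1) N`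
predicts the number of prime tuples with a relative error of at most `ε`. -/
def Holds {s : ℕ} (ε : ℝ) (U N : ℕ) (a : Fin s → ℕ) : Prop :=
  ∃ S : ℝ, Filter.Tendsto (fun z => singZ (fun i => (a i : ℤ)) z) Filter.atTop (nhds S) ∧
    |tupleCount (fun i => (a i : ℤ)) N - S * N| ≤ (N : ℝ) / Real.log N ^ U ∧
    (Admissible (fun i => (a i : ℤ)) → 0 < S ∧
      |(primeTuples a N : ℝ) - S * (N / Real.log N ^ (s + 1))| ≤ ε * (S * (N / Real.log N ^ (s + 1))))

/-- For all `s ≥ 1`, `l ≥ 2` and `U` there is a constant `C` such that for all `H`, `B` and `ε > 0` there is an `N₀` with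
the following property. Let `A 1, ..., A s` be arbitrary sets of integers each of which contains an element of every
interval `[x, l x]`, `x ≥ 1` (the constants `C` and `N₀` do not depend on these sets). Let `N ≥ N₀`, and let
`0 ≤ h 1, ..., h s ≤ B N` be arbitrary integers such that the tuple `0, h 1, ..., h s` is admissible. Then there are sets
`S i` of at most `C (log log N) ^ 2` elements of `A i`, all between `log ^ H N` and `N / log ^ H N`, such that the tuple
`0, a 1, ..., a s`, where `a i` is the sum of `h i` and of the elements of `S i`, is admissible and satisfies the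
formula of Hardy and Littlewood for the primes up to `N`. -/
theorem result (s l U : ℕ) (hs : 1 ≤ s) (hl : 2 ≤ l) : ∃ C : ℝ, ∀ (H B : ℕ) (ε : ℝ), 0 < ε → ∃ N₀ : ℕ,
    ∀ A : Fin s → Set ℕ, (∀ i, ∀ x : ℕ, 1 ≤ x → ∃ a ∈ A i, x ≤ a ∧ a ≤ l * x) →
      ∀ N : ℕ, N₀ ≤ N → ∀ h : Fin s → ℕ, (∀ i, h i ≤ B * N) → Admissible (fun i => (h i : ℤ)) →
        ∃ S : Fin s → Finset ℕ,
          (∀ i, ∀ a ∈ S i, a ∈ A i ∧ Real.log N ^ H ≤ a ∧ (a : ℝ) ≤ N / Real.log N ^ H) ∧
          (∀ i, ((S i).card : ℝ) ≤ C * Real.log (Real.log N) ^ 2) ∧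
          Admissible (fun i => ((h i + ∑ a ∈ S i, a : ℕ) : ℤ)) ∧ Holds ε U N (fun i => h i + ∑ a ∈ S i, a) :=
  Pool.Agent.Y885.las_tuples s l U hs hl

end Pool.Agent.Results.MP_e87c7d_nt.ElementsOfAnySets
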