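import Pool.Agent.Y843.AC.HLD
import Pool.Agent.H362R2.QT.Fin2
import Pool.Agent.Y843.AQ.Sg

/-!
# Progressions of prime `r`-tuples: the exact order of their number

`T` is a finite admissible set of integers, `|T| = r`, and `𝔖(T)` its singular series. We count arithmetic
progressions of `k` integers `n` with all `n + t`, `t ∈ T`, prime (or almost prime), with differences at
most `D`; the expected order of their number in a window `(y₁, y₂]` below `x` is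
`(y₂ - y₁) D (𝔖(T) / log ^ r x) ^ k`. Everything is uniform in `T ⊆ [-x, x]`.
-/

set_option autoImplicit false

namespace Pool.Agent.Results.MP_e87c7d_nt.ProgressionsOfPrimeTuples

open Finset

/-- The number of the residue classes modulo `q` occupied by `T`. -/
def nu (T : Finset ℤ) (q : ℕ) : ℕ := (T.image (fun t : ℤ => t % q)).card

/-- The local factor `(1 - ν(q) / q) (1 - 1 / q) ^ (-|T|)`. -/
noncomputable def loc (T : Finset ℤ) (q : ℕ) : ℝ := (1 - (nu T q : ℝ) / q) / (1 - 1 / (q : ℝ)) ^ T.card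

/-- The singular series `𝔖(T)`, the product of the local factors over all primes. -/
noncomputable def Sing (T : Finset ℤ) : ℝ := ∏' q : Nat.Primes, loc T q

/-- The admissible sets of `r` integers of absolute value at most `x`. -/
def Tuples (r x : ℕ) : Set (Finset ℤ) :=
  {T | T.card = r ∧ (∀ q : ℕ, q.Prime → nu T q < q) ∧ ∀ t ∈ T, |t| ≤ x}

/-- The `n` in `(y₁, y₂]` for which all `n + t`, `t ∈ T`, are primes (up to the sign). -/
def P (T : Finset ℤ) (y₁ y₂ : ℕ) : Finset ℕ :=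
  (Ioc y₁ y₂).filter (fun n => ∀ t ∈ T, ((n : ℤ) + t).natAbs.Prime)

/-- `m ≠ 0` is up to the sign a product of at most `j` primes, all of them larger than `w`. -/
def Almost (j : ℕ) (w : ℝ) (m : ℤ) : Prop :=
  m ≠ 0 ∧ m.natAbs.primeFactorsList.length ≤ j ∧ ∀ q : ℕ, q.Prime → (q : ℤ) ∣ m → w < q

open Classical in
/-- The primes `n` in `(y₁, y₂]` for which `n + h` is a product of at most two primes, both larger than
`x ^ (1/9)`, and all `n + t`, `t ∈ T`, are products of at most `j` primes larger than `x ^ (1/j)`. -/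
noncomputable def Chen (j x : ℕ) (T : Finset ℤ) (h : ℤ) (y₁ y₂ : ℕ) : Finset ℕ :=
  (Ioc y₁ y₂).filter (fun n : ℕ => n.Prime ∧ Almost 2 ((x : ℝ) ^ (1 / 9 : ℝ)) (n + h) ∧
    ∀ t ∈ T, Almost j ((x : ℝ) ^ (1 / (j : ℝ))) (n + t))

/-- All `n + t`, `t ∈ T`, are primes (up to the sign), or none of them has a prime factor `≤ x ^ (1/u)`. -/
def R (u x : ℕ) (T : Finset ℤ) (n : ℕ) : Prop := (∀ t ∈ T, ((n : ℤ) + t).natAbs.Prime) ∨
  ∀ q : ℕ, q.Prime → (q : ℝ) ≤ (x : ℝ) ^ (1 / (u : ℝ)) → ∀ t ∈ T, ¬ (q : ℤ) ∣ n + t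

open Classical in
/-- The number of the progressions `a, a + d, …, a + (k - 1) d` in `S` with `1 ≤ d ≤ D`. -/
noncomputable def AP (k D : ℕ) (S : Finset ℕ) : ℕ :=
  ((S ×ˢ Icc 1 D).filter (fun q => ∀ j < k, q.1 + j * q.2 ∈ S)).card

open Classical in
/-- The elements of `S` which lie in no progression of `k` elements of `S` with a difference in `[1, D]`. -/
noncomputable def outside (k : ℕ) (D : ℝ) (S : Finset ℕ) : Finset ℕ :=
  S.filter (fun n => ¬ ∃ a d : ℕ, 1 ≤ d ∧ (d : ℝ) ≤ D ∧ (∀ j < k, a + j * d ∈ S) ∧ ∃ j < k, n = a + j * d)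

/-- The expected density `𝔖(T) / log ^ |T| x`. -/
noncomputable def g (T : Finset ℤ) (x : ℕ) : ℝ := Sing T / Real.log x ^ T.card

/-- The expected order `(y₂ - y₁) D g ^ k` of the number of progressions. -/
noncomputable def E (k x : ℕ) (T : Finset ℤ) (y₁ y₂ D : ℕ) : ℝ := ((y₂ : ℝ) - y₁) * D * g T x ^ k

/-- For all `D` between `log ^ B x` and `x`, the number of the progressions of `k` numbers `n ≤ x` with all
`n + t`, `t ∈ T`, prime, with differences at most `D`, is between `c` and `C` times the expected order. -/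
def ExactOrder (k B : ℕ) (c C : ℝ) (x : ℕ) (T : Finset ℤ) : Prop :=
  ∀ D : ℕ, Real.log x ^ B ≤ D → D ≤ x →
    c * E k x T 0 x D ≤ AP k D (P T 0 x) ∧ (AP k D (P T 0 x) : ℝ) ≤ C * E k x T 0 x D

lemma AP_eq (k D : ℕ) (S : Finset ℕ) : AP k D S = (Pool.Agent.Y843.AC.APs k D S).card := rfl

lemma tup {r x : ℕ} {T : Finset ℤ} (h : T ∈ Tuples r x) : Pool.Agent.Y843.AC.HL.Tup r x T :=
  ⟨h.1, h.2.1, h.2.2⟩

lemma g_eq (T : Finset ℤ) (x : ℕ) : g T x = Pool.Agent.Y843.AC.HL.gg T x := rfl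

/-- windows -/
lemma win {x y₁ y₂ : ℕ} {θ : ℝ} (hθ : 0 < θ) (hx : 1 ≤ x) (hy2 : y₂ ≤ x)
    (hy : (x : ℝ) ^ θ ≤ (y₂ : ℝ) - y₁) : y₁ ≤ y₂ ∧ ((y₂ - y₁ : ℕ) : ℝ) = (y₂ : ℝ) - y₁ ∧
      (x : ℝ) ^ θ ≤ ((y₂ - y₁ : ℕ) : ℝ) ∧ y₂ - y₁ ≤ x ∧ Ioc y₁ y₂ = Ioc y₁ (y₁ + (y₂ - y₁)) := by
  have h0 : 0 < (x : ℝ) ^ θ := Real.rpow_pos_of_pos (by exact_mod_cast hx) _
  have h12 : y₁ ≤ y₂ := by
    have : (y₁ : ℝ) ≤ y₂ := by linarith
    exact_mod_cast this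
  refine ⟨h12, by rw [Nat.cast_sub h12], by rw [Nat.cast_sub h12]; exact hy, by omega, ?_⟩
  congr 1
  omega

theorem up (r k : ℕ) (hk : 1 ≤ k) (u : ℕ) (θ : ℝ) (hu : 1 ≤ u) (hθ : 0 < θ) :
    ∃ C : ℝ, 0 < C ∧ ∃ B x₀ : ℕ, ∀ x : ℕ, x₀ ≤ x → ∀ T ∈ Tuples r x, ∀ y₁ y₂ D : ℕ, y₂ ≤ x →
      (x : ℝ) ^ θ ≤ (y₂ : ℝ) - y₁ → Real.log x ^ B ≤ D → ∀ S : Finset ℕ, S ⊆ Ioc y₁ y₂ →
      (∀ n ∈ S, R u x T n) → (AP k D S : ℝ) ≤ C * E k x T y₁ y₂ D := by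
  obtain ⟨C, hC, B, x₀, h⟩ := Pool.Agent.Y843.AC.HL.rep_up r k u hk hu hθ
  refine ⟨C, hC, B, max x₀ 1, ?_⟩
  intro x hx T hT y₁ y₂ D hy2 hy hD S hS hR
  obtain ⟨w1, w2, w3, w4, w5⟩ := win hθ ((le_max_right _ _).trans hx) hy2 hy
  have := h x ((le_max_left _ _).trans hx) T (tup hT) y₁ (y₂ - y₁) D w3 w4 hD S (by rwa [← w5]) hR
  rw [w2] at this
  exact this

theorem dn (r k : ℕ) (hk : 1 ≤ k) (u : ℕ) (θ δ : ℝ) (hu : 1 ≤ u) (hθ : 0 < θ) (hδ : 0 < δ) :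
    ∃ c : ℝ, 0 < c ∧ ∃ B x₀ : ℕ, ∀ x : ℕ, x₀ ≤ x → ∀ T ∈ Tuples r x, ∀ y₁ y₂ D : ℕ, y₂ ≤ x →
      (x : ℝ) ^ θ ≤ (y₂ : ℝ) - y₁ → Real.log x ^ B ≤ D → (D : ℝ) ≤ (y₂ : ℝ) - y₁ →
      ∀ S : Finset ℕ, S ⊆ Ioc y₁ y₂ → (∀ n ∈ S, R u x T n) →
      (δ * (((y₂ : ℝ) - y₁) * g T x) ≤ S.card → c * E k x T y₁ y₂ D ≤ AP k D S) ∧
      (δ * E k x T y₁ y₂ D ≤ AP k D S → c * (((y₂ : ℝ) - y₁) * g T x) ≤ S.card) := by
  obtain ⟨c, hc, B, x₀, h⟩ := Pool.Agent.Y843.AC.HL.rep_dn r k u hk hu hθ hδ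
  refine ⟨c, hc, B, max x₀ 1, ?_⟩
  intro x hx T hT y₁ y₂ D hy2 hy hD hDy S hS hR
  obtain ⟨w1, w2, w3, w4, w5⟩ := win hθ ((le_max_right _ _).trans hx) hy2 hy
  have := h x ((le_max_left _ _).trans hx) T (tup hT) y₁ (y₂ - y₁) D w3 w4 hD
    (by rw [← w2] at hDy; exact_mod_cast hDy) S (by rwa [← w5]) hR
  rw [w2] at this
  exact this

lemma wide {θ : ℝ} (hθ : 0 < θ) : ∃ x₀ : ℕ, ∀ x : ℕ, x₀ ≤ x → (x : ℝ) ^ (1 / 2 : ℝ) ≤ θ * x := by
  have h2 := ((tendsto_rpow_atTop (show (0 : ℝ) < 1 / 2 by norm_num)).comp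
    (tendsto_natCast_atTop_atTop (R := ℝ))).eventually (Filter.eventually_ge_atTop (1 / θ))
  rw [Filter.eventually_atTop] at h2
  obtain ⟨x₀, h⟩ := h2
  refine ⟨max x₀ 1, fun x hx => ?_⟩
  have h3 : 1 / θ ≤ (x : ℝ) ^ (1 / 2 : ℝ) := h x ((le_max_left _ _).trans hx)
  have hx0 : (0 : ℝ) < x := by exact_mod_cast (show 0 < x from (le_max_right _ _).trans hx)
  rw [div_le_iff₀ hθ] at h3
  have h4 : (x : ℝ) = (x : ℝ) ^ (1 / 2 : ℝ) * (x : ℝ) ^ (1 / 2 : ℝ) := by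
    rw [← Real.rpow_add hx0]
    norm_num
  have h5 : 0 < (x : ℝ) ^ (1 / 2 : ℝ) := by positivity
  calc (x : ℝ) ^ (1 / 2 : ℝ) = 1 * (x : ℝ) ^ (1 / 2 : ℝ) := (one_mul _).symm
    _ ≤ (x : ℝ) ^ (1 / 2 : ℝ) * θ * (x : ℝ) ^ (1 / 2 : ℝ) := mul_le_mul_of_nonneg_right h3 h5.le
    _ = θ * ((x : ℝ) ^ (1 / 2 : ℝ) * (x : ℝ) ^ (1 / 2 : ℝ)) := by ring
    _ = θ * x := by rw [← h4]

lemma Chen_eq (j x : ℕ) (T : Finset ℤ) (h : ℤ) (y₁ y₂ : ℕ) :
    Chen j x T h y₁ y₂ = Pool.Agent.Y843.AC.HL.Ch j x T h y₁ y₂ := rfl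

/-- (2) -/
theorem chen (r : ℕ) : ∃ j : ℕ, 1 ≤ j ∧ ∀ k : ℕ, 1 ≤ k → ∃ c C : ℝ, 0 < c ∧ 0 < C ∧ ∃ B : ℕ,
    ∀ θ : ℝ, 0 < θ → ∃ x₀ : ℕ, ∀ x : ℕ, x₀ ≤ x → ∀ T ∈ Tuples r x, (0 : ℤ) ∈ T → ∀ h ∈ T, h ≠ 0 →
      ∀ y₁ y₂ D : ℕ, y₂ ≤ x → θ * x ≤ (y₂ : ℝ) - y₁ → Real.log x ^ B ≤ D → (D : ℝ) ≤ (y₂ : ℝ) - y₁ →
        c * E k x T y₁ y₂ D ≤ AP k D (Chen j x T h y₁ y₂) ∧
          (AP k D (Chen j x T h y₁ y₂) : ℝ) ≤ C * E k x T y₁ y₂ D := by
  classical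
  obtain ⟨j, hj, c₀, hc₀, h0⟩ := Pool.Agent.Y843.AC.HL.chen_low r
  refine ⟨j, hj, fun k hk => ?_⟩
  obtain ⟨C, hC, B₁, x₁, h1⟩ := up r k hk j (1 / 2) hj (by norm_num)
  obtain ⟨c, hc, B₂, x₂, h2⟩ := dn r k hk j (1 / 2) c₀ hj (by norm_num) hc₀
  refine ⟨c, C, hc, hC, max B₁ B₂, fun θ hθ => ?_⟩
  obtain ⟨x₃, h3⟩ := h0 θ hθ
  obtain ⟨x₄, h4⟩ := wide hθ
  refine ⟨max (max x₁ x₂) (max (max x₃ x₄) 3), ?_⟩
  intro x hx T hT h0T h hh hh0 y₁ y₂ D hy2 hy hD hDy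
  have e1 : x₁ ≤ x := by omega
  have e2 : x₂ ≤ x := by omega
  have e3 : x₃ ≤ x := by omega
  have e4 : x₄ ≤ x := by omega
  have hl := Pool.Agent.Y843.AC.HL.log_one (show 3 ≤ x by omega)
  have hwin : (x : ℝ) ^ (1 / 2 : ℝ) ≤ (y₂ : ℝ) - y₁ := (h4 x e4).trans hy
  have hsub : Chen j x T h y₁ y₂ ⊆ Ioc y₁ y₂ := Pool.Agent.Y843.AC.HL.Ch_sub T h y₁ y₂
  have hR : ∀ n ∈ Chen j x T h y₁ y₂, R j x T n := fun n hn =>
    Or.inr (Pool.Agent.Y843.AC.HL.Ch_rough T h y₁ y₂ n hn)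
  refine ⟨?_, h1 x e1 T hT y₁ y₂ D hy2 hwin ((pow_le_pow_right₀ hl (le_max_left _ _)).trans hD) _ hsub hR⟩
  exact (h2 x e2 T hT y₁ y₂ D hy2 hwin ((pow_le_pow_right₀ hl (le_max_right _ _)).trans hD) hDy _ hsub
    hR).1 (h3 x e3 T (tup hT) h0T h hh hh0 y₁ y₂ hy2 hy)

/-- (3), all but few elements are in progressions -/
theorem her (r k : ℕ) (hk : 1 ≤ k) (u : ℕ) (θ δ : ℝ) (hu : 1 ≤ u) (hθ : 0 < θ) (hδ : 0 < δ) :
    ∃ B x₀ : ℕ, ∀ x : ℕ, x₀ ≤ x → ∀ T ∈ Tuples r x, ∀ y₁ y₂ : ℕ, y₂ ≤ x →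
      (x : ℝ) ^ θ ≤ (y₂ : ℝ) - y₁ → ∀ S : Finset ℕ, S ⊆ Ioc y₁ y₂ → (∀ n ∈ S, R u x T n) →
      ((outside k (Real.log x ^ B) S).card : ℝ) ≤ δ * (((y₂ : ℝ) - y₁) * g T x) := by
  classical
  obtain ⟨c, hc, B, n₁, h1⟩ := dn r k hk u θ δ hu hθ hδ
  obtain ⟨n₂, h2⟩ := Pool.Agent.Y843.AC.HL.log_small 1 (B + 1) hθ
  have e3 := (tendsto_natCast_atTop_atTop (R := ℝ)).eventually
    (Real.tendsto_log_atTop.eventually (Filter.eventually_ge_atTop (2 : ℝ)))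
  rw [Filter.eventually_atTop] at e3
  obtain ⟨n₃, h3⟩ := e3
  refine ⟨B + 1, max (max n₁ n₂) (max n₃ 3), ?_⟩
  intro x hx T hT y₁ y₂ hy2 hy S hS hR
  have g1 : Real.log x ^ (B + 1) ≤ (x : ℝ) ^ θ := by
    have := h2 x (by omega)
    rwa [one_mul] at this
  have g2 : 2 ≤ Real.log x := h3 x (by omega)
  have hlB : 1 ≤ Real.log x ^ B := one_le_pow₀ (by linarith)
  obtain ⟨D, hD⟩ : ∃ D : ℕ, D = ⌈Real.log x ^ B⌉₊ := ⟨_, rfl⟩
  have hD1 : Real.log x ^ B ≤ D := by rw [hD]; exact Nat.le_ceil _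
  have hD2 : (D : ℝ) ≤ Real.log x ^ (B + 1) := by
    have h3 : (D : ℝ) < Real.log x ^ B + 1 := by rw [hD]; exact Nat.ceil_lt_add_one (by linarith)
    rw [pow_succ]
    nlinarith
  have hD0 : (0 : ℝ) < D := by linarith
  obtain ⟨S', hS'⟩ : ∃ S', S' = outside k (Real.log x ^ (B + 1)) S := ⟨_, rfl⟩
  have hsub : S' ⊆ S := by
    rw [hS']
    unfold outside
    exact filter_subset _ _
  have hAP : AP k D S' = 0 := by
    unfold AP
    rw [card_eq_zero, filter_eq_empty_iff]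
    intro q hq hcon
    rw [mem_product, mem_Icc] at hq
    have h4 := hq.1
    rw [hS'] at h4
    unfold outside at h4
    rw [mem_filter] at h4
    apply h4.2
    refine ⟨q.1, q.2, hq.2.1, ?_, fun j hj => hsub (hcon j hj), 0, by omega, by omega⟩
    refine le_trans ?_ hD2
    exact_mod_cast hq.2.2
  rw [← hS']
  by_contra hcon
  rw [not_le] at hcon
  have h5 := (h1 x (by omega) T hT y₁ y₂ D hy2 hy hD1 (hD2.trans (g1.trans hy)) S'
    (hsub.trans hS) (fun n hn => hR n (hsub hn))).1 hcon.le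
  rw [hAP] at h5
  have h6 : 0 < (y₂ : ℝ) - y₁ := by
    have : (0 : ℝ) < (x : ℝ) ^ θ := by
      have : (0 : ℝ) < Real.log x ^ (B + 1) := by positivity
      linarith
    linarith
  have h7 : 0 < E k x T y₁ y₂ D := by
    unfold E
    have h8 : 0 < g T x := Pool.Agent.Y843.AC.HL.gg_pos (by omega) (tup hT)
    positivity
  have h8 : 0 < c * E k x T y₁ y₂ D := mul_pos hc h7
  rw [Nat.cast_zero] at h5
  linarith

lemma P_sub (T : Finset ℤ) (y₁ y₂ : ℕ) : P T y₁ y₂ ⊆ Ioc y₁ y₂ := filter_subset _ _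

lemma P_R (T : Finset ℤ) (y₁ y₂ u x : ℕ) : ∀ n ∈ P T y₁ y₂, R u x T n := fun _ hn =>
  Or.inl (mem_filter.1 hn).2

lemma full (n : ℕ) : (n : ℝ) ^ (1 : ℝ) ≤ (n : ℝ) - (0 : ℕ) := by
  rw [Real.rpow_one]
  simp

/-- (4) -/
theorem order (r k : ℕ) (hk : 1 ≤ k) (M : Set (ℕ × Finset ℤ)) (hM : ∀ q ∈ M, q.2 ∈ Tuples r q.1) :
    ((∃ c : ℝ, 0 < c ∧ ∃ x₀ : ℕ, ∀ q ∈ M, x₀ ≤ q.1 → c * (q.1 * g q.2 q.1) ≤ (P q.2 0 q.1).card) ↔
      ∃ c C : ℝ, 0 < c ∧ 0 < C ∧ ∃ B x₀ : ℕ, ∀ q ∈ M, x₀ ≤ q.1 → ExactOrder k B c C q.1 q.2) ∧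
    ((∃ c : ℝ, 0 < c ∧ ∃ x₀ : ℕ, ∀ q ∈ M, x₀ ≤ q.1 → c * (q.1 * g q.2 q.1) ≤ (P q.2 0 q.1).card) ↔
      ∃ c : ℝ, 0 < c ∧ ∀ B : ℕ, ∃ x₀ : ℕ, ∀ q ∈ M, x₀ ≤ q.1 → ∃ D : ℕ, Real.log q.1 ^ B ≤ D ∧ D ≤ q.1 ∧
        c * E k q.1 q.2 0 q.1 D ≤ AP k D (P q.2 0 q.1)) := by
  classical
  have a1 : (∃ c : ℝ, 0 < c ∧ ∃ x₀ : ℕ, ∀ q ∈ M, x₀ ≤ q.1 →
        c * (q.1 * g q.2 q.1) ≤ (P q.2 0 q.1).card) →
      ∃ c C : ℝ, 0 < c ∧ 0 < C ∧ ∃ B x₀ : ℕ, ∀ q ∈ M, x₀ ≤ q.1 → ExactOrder k B c C q.1 q.2 := by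
    rintro ⟨δ, hδ, n₀, h⟩
    obtain ⟨c, hc, B, n₁, h1⟩ := dn r k hk 1 1 δ le_rfl one_pos hδ
    obtain ⟨C, hC, B', n₂, h2⟩ := up r k hk 1 1 le_rfl one_pos
    refine ⟨c, C, hc, hC, max B B', max (max n₀ 3) (max n₁ n₂), ?_⟩
    intro q hq hx D hD hDx
    have hl := Pool.Agent.Y843.AC.HL.log_one (show 3 ≤ q.1 by omega)
    constructor
    · refine (h1 q.1 (by omega) q.2 (hM q hq) 0 q.1 D le_rfl (full _)
        ((pow_le_pow_right₀ hl (le_max_left _ _)).trans hD) (by simpa using hDx) _ (P_sub _ _ _)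
        (P_R _ _ _ _ _)).1 ?_
      simpa using h q hq (by omega)
    · exact h2 q.1 (by omega) q.2 (hM q hq) 0 q.1 D le_rfl (full _)
        ((pow_le_pow_right₀ hl (le_max_right _ _)).trans hD) _ (P_sub _ _ _) (P_R _ _ _ _ _)
  have a2 : (∃ c C : ℝ, 0 < c ∧ 0 < C ∧ ∃ B x₀ : ℕ, ∀ q ∈ M, x₀ ≤ q.1 → ExactOrder k B c C q.1 q.2) →
      ∃ c : ℝ, 0 < c ∧ ∀ B : ℕ, ∃ x₀ : ℕ, ∀ q ∈ M, x₀ ≤ q.1 → ∃ D : ℕ, Real.log q.1 ^ B ≤ D ∧ D ≤ q.1 ∧
        c * E k q.1 q.2 0 q.1 D ≤ AP k D (P q.2 0 q.1) := by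
    rintro ⟨c, C, hc, _, B₀, n₀, h⟩
    refine ⟨c, hc, fun B => ?_⟩
    obtain ⟨n₁, h1⟩ := Pool.Agent.Y843.AC.HL.log_small 1 B one_pos
    obtain ⟨n₂, h2⟩ := Pool.Agent.Y843.AC.HL.log_small 1 B₀ one_pos
    refine ⟨max n₀ (max n₁ n₂), ?_⟩
    intro q hq hx
    have e1 := h1 q.1 (by omega)
    have e2 := h2 q.1 (by omega)
    rw [one_mul, Real.rpow_one] at e1 e2
    exact ⟨q.1, e1, le_rfl, (h q hq (by omega) q.1 e2 le_rfl).1⟩
  have a3 : (∃ c : ℝ, 0 < c ∧ ∀ B : ℕ, ∃ x₀ : ℕ, ∀ q ∈ M, x₀ ≤ q.1 → ∃ D : ℕ, Real.log q.1 ^ B ≤ D ∧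
        D ≤ q.1 ∧ c * E k q.1 q.2 0 q.1 D ≤ AP k D (P q.2 0 q.1)) →
      ∃ c : ℝ, 0 < c ∧ ∃ x₀ : ℕ, ∀ q ∈ M, x₀ ≤ q.1 → c * (q.1 * g q.2 q.1) ≤ (P q.2 0 q.1).card := by
    rintro ⟨δ, hδ, h⟩
    obtain ⟨c, hc, B, n₁, h1⟩ := dn r k hk 1 1 δ le_rfl one_pos hδ
    obtain ⟨n₀, h0⟩ := h B
    refine ⟨c, hc, max n₀ n₁, ?_⟩
    intro q hq hx
    obtain ⟨D, hD, hDx, hE⟩ := h0 q hq ((le_max_left _ _).trans hx)
    have h2 := (h1 q.1 ((le_max_right _ _).trans hx) q.2 (hM q hq) 0 q.1 D le_rfl (full _) hD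
      (by simpa using hDx) _ (P_sub _ _ _) (P_R _ _ _ _ _)).2 hE
    simpa using h2
  exact ⟨⟨a1, fun h => a3 (a2 h)⟩, ⟨fun h => a2 (a1 h), a3⟩⟩

/-- sets of natural numbers -/
lemma nu_nat (T : Finset ℕ) {q : ℕ} :
    nu (T.map Nat.castEmbedding) q = Pool.Agent.H387R2.Uni.nuT T q := by
  classical
  unfold nu Pool.Agent.H387R2.Uni.nuT
  rw [map_eq_image, image_image]
  symm
  apply Pool.Agent.Y843.AC.HL.card_image_eq_of
  intro s _ t _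
  simp only [Function.comp, Nat.castEmbedding_apply]
  have e : ∀ v : ℕ, (v : ℤ) % (q : ℤ) = ((v % q : ℕ) : ℤ) := fun v => (Int.natCast_mod v q).symm
  rw [e s, e t]
  exact Nat.cast_inj

lemma sing_nat (T : Finset ℕ) : Sing (T.map Nat.castEmbedding) = Pool.Agent.H387R2.Uni.CT T := by
  unfold Sing Pool.Agent.H387R2.Uni.CT loc Pool.Agent.H387R2.Uni.locT
  simp_rw [nu_nat, card_map]

lemma P_nat (T : Finset ℕ) (N : ℕ) :
    (P (T.map Nat.castEmbedding) 0 N).card = Pool.Agent.H387R2.MB.piN N T := by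
  unfold P Pool.Agent.H387R2.MB.piN
  have h0 : Ioc 0 N = Icc 1 N := by
    ext v
    rw [mem_Ioc, mem_Icc]
    omega
  rw [h0]
  congr 1
  apply filter_congr
  intro n _
  constructor
  · intro h t ht
    have := h t (by rw [mem_map]; exact ⟨t, ht, rfl⟩)
    exact_mod_cast this
  · intro h t ht
    rw [mem_map] at ht
    obtain ⟨v, hv, rfl⟩ := ht
    have := h v hv
    rw [Nat.castEmbedding_apply]
    exact_mod_cast this

lemma adm_of_sing {T : Finset ℤ} (h : Sing T ≠ 0) : ∀ q : ℕ, q.Prime → nu T q < q := by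
  intro q hq
  by_contra hcon
  apply h
  have h1 : nu T q ≤ q := by
    unfold nu
    have h2 : T.image (fun t : ℤ => t % q) ⊆ Ico (0 : ℤ) q := by
      intro v hv
      obtain ⟨t, _, rfl⟩ := mem_image.1 hv
      rw [mem_Ico]
      exact ⟨Int.emod_nonneg _ (by exact_mod_cast hq.ne_zero), Int.emod_lt_of_pos _ (by exact_mod_cast hq.pos)⟩
    have h3 := card_le_card h2
    rw [Int.card_Ico] at h3
    simpa using h3
  have h2 : nu T q = q := by omega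
  have h3 : loc T q = 0 := by
    have hq0 : (q : ℝ) ≠ 0 := by exact_mod_cast hq.ne_zero
    unfold loc
    rw [h2, div_self hq0, sub_self, zero_div]
  unfold Sing
  exact tprod_of_exists_eq_zero ⟨⟨q, hq⟩, h3⟩

open Classical in
/-- (5) -/
theorem quarter (r k : ℕ) (hr : 2 ≤ r) (hk : 1 ≤ k) (ε lam : ℝ) (hε : 0 < ε) (hlam : 0 < lam) :
    ∃ c C : ℝ, 0 < c ∧ 0 < C ∧ ∃ B : ℕ, ∀ q : ℕ, 1 ≤ q → ∀ L : ℝ, ∃ x₀ : ℕ, ∀ x : ℕ, x₀ ≤ x →
      ∀ (a : ℤ) (A : Finset ℤ), (∀ b ∈ A, b ≡ a [ZMOD q]) → (∀ b ∈ A, 0 ≤ b ∧ (b : ℝ) ≤ Real.log x ^ L) →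
      lam * ((Nat.totient q : ℝ) / q) * Real.log x ≤ A.card →
        ((1 / 4 : ℝ) ^ (r - 1) - ε) * ∑ T ∈ A.powersetCard r, Sing T ≤
          ∑ T ∈ (A.powersetCard r).filter (fun T => ExactOrder k B c C x T), Sing T := by
  classical
  obtain ⟨k', rfl⟩ : ∃ k', r = k' + 1 := ⟨r - 1, by omega⟩
  obtain ⟨κ, hκ, hq⟩ := Pool.Agent.H362R2.QT.fin_holds k' ε lam (by omega) hε hlam
  obtain ⟨c, hc, B₁, n₁, h1⟩ := dn (k' + 1) k hk 1 1 κ le_rfl one_pos hκ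
  obtain ⟨C, hC, B₂, n₂, h2⟩ := up (k' + 1) k hk 1 1 le_rfl one_pos
  refine ⟨c, C, hc, hC, max B₁ B₂, ?_⟩
  intro q hq1 L
  obtain ⟨n₃, h3⟩ := hq q hq1 L
  have h4 := (isLittleO_log_rpow_rpow_atTop L one_pos).bound (show (0 : ℝ) < 1 by norm_num)
  have h5 := (tendsto_natCast_atTop_atTop (R := ℝ)).eventually (h4.and (Filter.eventually_ge_atTop (1 : ℝ)))
  rw [Filter.eventually_atTop] at h5
  obtain ⟨n₄, h6⟩ := h5
  refine ⟨max (max n₁ n₂) (max (max n₃ n₄) 3), ?_⟩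
  intro x hx a A hA hAL hcard
  have hl := Pool.Agent.Y843.AC.HL.log_one (show 3 ≤ x by omega)
  obtain ⟨h7, h8⟩ := h6 x (by omega)
  have hlog : Real.log x ^ L ≤ x := by
    rw [Real.rpow_one, Real.norm_of_nonneg (by positivity), Real.norm_of_nonneg (by positivity), one_mul] at h7
    exact h7
  obtain ⟨A', hA'⟩ : ∃ A' : Finset ℕ, A = A'.map Nat.castEmbedding := by
    refine ⟨A.image Int.toNat, ?_⟩
    ext v
    rw [mem_map]
    constructor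
    · intro hv
      refine ⟨v.toNat, mem_image_of_mem _ hv, ?_⟩
      rw [Nat.castEmbedding_apply]
      exact Int.toNat_of_nonneg (hAL v hv).1
    · rintro ⟨w, hw, rfl⟩
      obtain ⟨b, hb, rfl⟩ := mem_image.1 hw
      rw [Nat.castEmbedding_apply, Int.toNat_of_nonneg (hAL b hb).1]
      exact hb
  have hmem : ∀ b ∈ A', ((b : ℕ) : ℤ) ∈ A := by
    intro b hb
    rw [hA', mem_map]
    exact ⟨b, hb, rfl⟩
  have hq0 : (q : ℤ) ≠ 0 := by exact_mod_cast (by omega : q ≠ 0)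
  have h9 := h3 x (by omega) ((a % q).toNat) A' (by
      intro b hb
      have h10 := hA b (hmem b hb)
      have h11 : ((b : ℕ) : ℤ) ≡ (((a % q).toNat : ℕ) : ℤ) [ZMOD q] := by
        rw [Int.toNat_of_nonneg (Int.emod_nonneg a hq0)]
        exact h10.trans (Int.mod_modEq a q).symm
      exact (Int.natCast_modEq_iff).1 h11) (by
      intro b hb
      exact_mod_cast (hAL b (hmem b hb)).2) (by
      rw [hA', card_map] at hcard
      exact hcard)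
  have hsum : ∀ f : Finset ℤ → ℝ, ∑ T ∈ A.powersetCard (k' + 1), f T =
      ∑ T ∈ A'.powersetCard (k' + 1), f (T.map Nat.castEmbedding) := by
    intro f
    rw [hA', powersetCard_map, sum_map]
    rfl
  rw [Finset.sum_filter, hsum, hsum, ← Finset.sum_filter]
  rw [show k' + 1 - 1 = k' by omega]
  simp_rw [sing_nat]
  refine h9.trans ?_
  rw [← Finset.sum_filter_ne_zero]
  apply Finset.sum_le_sum_of_subset_of_nonneg
  · intro T hT
    rw [mem_filter, mem_filter, mem_powersetCard] at hT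
    obtain ⟨⟨⟨t1, t2⟩, t3⟩, t4⟩ := hT
    rw [mem_filter, mem_powersetCard]
    refine ⟨⟨t1, t2⟩, ?_⟩
    have hTup : T.map Nat.castEmbedding ∈ Tuples (k' + 1) x := by
      refine ⟨by rw [card_map, t2], adm_of_sing (by rw [sing_nat]; exact t4), ?_⟩
      intro t ht
      rw [mem_map] at ht
      obtain ⟨v, hv, rfl⟩ := ht
      rw [Nat.castEmbedding_apply, Nat.abs_cast]
      have h10 := (hAL v (hmem v (t1 hv))).2
      have h11 : (v : ℝ) ≤ x := by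
        refine le_trans ?_ hlog
        exact_mod_cast h10
      exact_mod_cast h11
    have hden : κ * (((x : ℝ) - (0 : ℕ)) * g (T.map Nat.castEmbedding) x) ≤
        (P (T.map Nat.castEmbedding) 0 x).card := by
      rw [P_nat]
      refine le_trans (le_of_eq ?_) t3
      unfold g
      rw [sing_nat, card_map, t2]
      push_cast
      ring
    intro D hD hDx
    constructor
    · exact (h1 x (by omega) _ hTup 0 x D le_rfl (full _)
        ((pow_le_pow_right₀ hl (le_max_left _ _)).trans hD) (by simpa using hDx) _ (P_sub _ _ _)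
        (P_R _ _ _ _ _)).1 hden
    · exact h2 x (by omega) _ hTup 0 x D le_rfl (full _)
        ((pow_le_pow_right₀ hl (le_max_right _ _)).trans hD) _ (P_sub _ _ _) (P_R _ _ _ _ _)
  · intro T _ _
    exact Pool.Agent.H387R2.Uni.CT_nonneg T

/-- logarithms of `x / 2` -/
theorem halves (U K : ℕ) : ∃ x₀ : ℕ, ∀ x : ℕ, x₀ ≤ x →
    K * Real.log x ^ U ≤ Real.log ((x / 2 : ℕ) : ℝ) ^ (U + 1) := by
  have e3 := (tendsto_natCast_atTop_atTop (R := ℝ)).eventually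
    (Real.tendsto_log_atTop.eventually (Filter.eventually_ge_atTop (2 ^ (U + 1) * (K : ℝ) + 6)))
  rw [Filter.eventually_atTop] at e3
  obtain ⟨n₃, h3⟩ := e3
  refine ⟨max n₃ 9, fun x hx => ?_⟩
  have h4 : 2 ^ (U + 1) * (K : ℝ) + 6 ≤ Real.log x := h3 x (by omega)
  have hx9 : 9 ≤ x := by omega
  have hx0 : (0 : ℝ) < x := by exact_mod_cast (show 0 < x by omega)
  have hK : (0 : ℝ) ≤ 2 ^ (U + 1) * (K : ℝ) := by positivity
  have h5 : (x : ℝ) / 3 ≤ ((x / 2 : ℕ) : ℝ) := by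
    rw [div_le_iff₀ (by norm_num)]
    exact_mod_cast (show x ≤ x / 2 * 3 by omega)
  have h6 : Real.log x / 2 ≤ Real.log ((x / 2 : ℕ) : ℝ) := by
    refine le_trans ?_ (Real.log_le_log (by positivity) h5)
    rw [Real.log_div hx0.ne' (by norm_num)]
    have h7 : Real.log 3 ≤ 2 := by
      rw [Real.log_le_iff_le_exp (by norm_num)]
      have := Real.add_one_le_exp (2 : ℝ)
      linarith
    linarith
  have hL : 0 < Real.log x := by linarith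
  calc (K : ℝ) * Real.log x ^ U = (2 ^ (U + 1) * K) * (Real.log x ^ U / 2 ^ (U + 1)) := by
        field_simp
    _ ≤ Real.log x * (Real.log x ^ U / 2 ^ (U + 1)) :=
        mul_le_mul_of_nonneg_right (by linarith) (by positivity)
    _ = (Real.log x / 2) ^ (U + 1) := by
        rw [div_pow, pow_succ (Real.log x) U]
        ring
    _ ≤ _ := pow_le_pow_left₀ (by positivity) h6 _

lemma ex_set {α : Type} (S : Finset α) (Q : α → Prop) : ∃ E : Finset α, ∀ n, n ∈ E ↔ n ∈ S ∧ Q n := by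
  classical
  exact ⟨S.filter Q, fun n => mem_filter⟩

/-- the shift vector -/
def sh {s : ℕ} (h : Fin s → ℕ) (a0 : ℕ) : Fin (s + 1) → ℕ := Fin.cons a0 (fun j => h j + a0)

/-- the tuple -/
def tp {s : ℕ} (h : Fin s → ℕ) : Finset ℤ := insert 0 (univ.image (fun j => (h j : ℤ)))

lemma mem_tp {s : ℕ} (h : Fin s → ℕ) (Q : ℤ → Prop) : (∃ t ∈ tp h, Q t) ↔ Q 0 ∨ ∃ j, Q (h j) := by
  unfold tp
  constructor
  · rintro ⟨t, ht, hQ⟩
    rcases mem_insert.1 ht with rfl | ht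
    · exact Or.inl hQ
    · obtain ⟨j, _, rfl⟩ := mem_image.1 ht
      exact Or.inr ⟨j, hQ⟩
  · rintro (hQ | ⟨j, hQ⟩)
    · exact ⟨0, mem_insert_self _ _, hQ⟩
    · exact ⟨h j, mem_insert_of_mem (mem_image_of_mem _ (mem_univ _)), hQ⟩

lemma ex_tp {s x : ℕ} {T : Finset ℤ} (hT : T.card = s + 1) (h0 : (0 : ℤ) ∈ T) (hpos : ∀ t ∈ T, 0 ≤ t)
    (hx : ∀ t ∈ T, |t| ≤ x) : ∃ h : Fin s → ℕ, T = tp h ∧ ∀ j, h j ∈ Icc 1 x := by
  classical
  have hc : (T.erase 0).card = s := by rw [card_erase_of_mem h0, hT]; omega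
  obtain ⟨e⟩ : Nonempty (Fin s ≃ (T.erase 0)) := ⟨((T.erase 0).equivFinOfCardEq hc).symm⟩
  have hcast : ∀ j, (((e j : ℤ).toNat : ℕ) : ℤ) = (e j : ℤ) := by
    intro j
    exact Int.toNat_of_nonneg (hpos _ (mem_of_mem_erase (e j).2))
  refine ⟨fun j => (e j : ℤ).toNat, ?_, ?_⟩
  · unfold tp
    simp only [hcast]
    have h1 : univ.image (fun j => (e j : ℤ)) = T.erase 0 := by
      ext t
      rw [mem_image]
      constructor
      · rintro ⟨j, _, rfl⟩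
        exact (e j).2
      · intro ht
        refine ⟨e.symm ⟨t, ht⟩, mem_univ _, ?_⟩
        rw [Equiv.apply_symm_apply]
    rw [h1, insert_erase h0]
  · intro j
    have h1 := mem_erase.1 (e j).2
    have h2 := hpos _ h1.2
    have h3 := hx _ h1.2
    have h4 := h1.1
    rw [abs_of_nonneg h2] at h3
    rw [mem_Icc]
    show 1 ≤ (e j : ℤ).toNat ∧ (e j : ℤ).toNat ≤ x
    omega

open Polynomial in
/-- the primes, for almost all `T` -/
theorem average_low (s : ℕ) : ∃ c : ℝ, 0 < c ∧ ∀ U : ℕ, ∃ x₀ : ℕ, ∀ x : ℕ, x₀ ≤ x →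
    ∃ Ex : Finset (Finset ℤ), (Ex.card : ℝ) ≤ (x : ℝ) ^ s / Real.log x ^ U ∧
      ∀ T ∈ Tuples (s + 1) x, (0 : ℤ) ∈ T → (∀ t ∈ T, 0 ≤ t) → T ∉ Ex →
        c * (x * g T x) ≤ (P T 0 x).card := by
  classical
  obtain ⟨σ, hσd⟩ : ∃ σ : Fin (s + 1) → ℤ, σ = fun _ => 1 := ⟨_, rfl⟩
  have hσ1 : ∀ i, σ i = 1 := by intro i; rw [hσd]
  obtain ⟨c, hc, h⟩ := Pool.Agent.Y843.AQ.sg_low (fun _ : Fin (s + 1) => (X : ℤ[X]))
    (fun _ => by rw [natDegree_X]) (fun _ => by rw [leadingCoeff_X]; norm_num) σ (fun i => Or.inl (hσ1 i))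
  obtain ⟨c₂, hc₂, x₂, hV₂⟩ := Pool.Agent.Y843.AC.HL.V_dn (s + 1)
  refine ⟨c * c₂ / 3, by positivity, fun U => ?_⟩
  obtain ⟨N, hN⟩ := h 6 (by omega) (U + 1)
  obtain ⟨N', hN'⟩ := halves U (2 ^ s)
  refine ⟨max (2 * N + 2) (max N' (max x₂ 9)), fun x hx => ?_⟩
  have hx9 : 9 ≤ x := by omega
  obtain ⟨x', hx'⟩ : ∃ x' : ℕ, x' = x / 2 := ⟨_, rfl⟩
  have hx3 : x ≤ 3 * x' := by omega
  have hx2 : 2 * x' ≤ x := by omega
  have hx'1 : 1 ≤ x' := by omega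
  have hvl : ∀ (k : Fin (s + 1) → ℕ) (i : Fin (s + 1)) (m : ℕ),
      Pool.Agent.H373R2.T7.vl (fun _ : Fin (s + 1) => (X : ℤ[X])) σ k i m = (k i : ℤ) + m := by
    intro k i m
    unfold Pool.Agent.H373R2.T7.vl
    rw [eval_X, hσ1, one_mul]
  obtain ⟨A, hA⟩ : ∃ A : Fin (s + 1) → ℕ, A = Fin.cons x' (fun _ => 2 * x) := ⟨_, rfl⟩
  have hA0 : A 0 = x' := by rw [hA]; rfl
  have hAs : ∀ j : Fin s, A j.succ = 2 * x := by intro j; rw [hA]; rfl
  obtain ⟨Bad, hBad, hgood⟩ := hN x' (by omega) A (by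
    intro i
    rw [natDegree_X, pow_one]
    refine Fin.cases ?_ (fun j => ?_) i
    · rw [hA0]
      constructor <;> omega
    · rw [hAs]
      constructor <;> omega)
  obtain ⟨Ev, hEv⟩ : ∃ Ev : Finset (Fin s → ℕ), ∀ n, n ∈ Ev ↔ n ∈ Fintype.piFinset (fun _ : Fin s => Icc 1 x) ∧
    ∀ a0 ∈ Icc 1 x', sh n a0 ∈ Bad := ex_set _ _
  have hcard : Ev.card * x' ≤ Bad.card := by
    have h1 : (Ev ×ˢ Icc 1 x').card ≤ Bad.card := by
      apply card_le_card_of_injOn (fun q : (Fin s → ℕ) × ℕ => sh q.1 q.2)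
      · intro q hq
        rw [mem_coe, mem_product, hEv] at hq
        exact hq.1.2 q.2 hq.2
      · intro q hq q' hq' he
        have e0 : q.2 = q'.2 := congrFun he 0
        have ej : ∀ j : Fin s, q.1 j + q.2 = q'.1 j + q'.2 := fun j => congrFun he j.succ
        refine Prod.ext ?_ e0
        funext j
        have g4 := ej j
        omega
    rwa [card_product, Nat.card_Icc, Nat.add_sub_cancel] at h1
  have hx0 : (0 : ℝ) < x := by exact_mod_cast (show 0 < x by omega)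
  have hx'0 : (0 : ℝ) < x' := by exact_mod_cast hx'1
  have hlx : 0 < Real.log x := Real.log_pos (by exact_mod_cast (show 1 < x by omega))
  have hlx' : 0 < Real.log x' := Real.log_pos (by exact_mod_cast (show 1 < x' by omega))
  refine ⟨Ev.image tp, ?_, ?_⟩
  · have h1 : (Ev.card : ℝ) * x' ≤ (x' * (2 * x : ℝ) ^ s) / Real.log x' ^ (U + 1) := by
      calc (Ev.card : ℝ) * x' ≤ Bad.card := by exact_mod_cast hcard
        _ ≤ _ := hBad
        _ = _ := by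
          rw [Fin.prod_univ_succ, hA0]
          simp only [hAs]
          rw [prod_const, card_univ, Fintype.card_fin]
          push_cast
          rfl
    have h2 : (Ev.card : ℝ) ≤ (2 * x : ℝ) ^ s / Real.log x' ^ (U + 1) := by
      have : (Ev.card : ℝ) * x' ≤ ((2 * x : ℝ) ^ s / Real.log x' ^ (U + 1)) * x' := by
        refine h1.trans (le_of_eq ?_)
        ring
      exact le_of_mul_le_mul_right this hx'0
    have h0 : ((Ev.image tp).card : ℝ) ≤ Ev.card := by exact_mod_cast card_image_le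
    refine h0.trans (h2.trans ?_)
    have h3 := hN' x (by omega)
    rw [← hx'] at h3
    push_cast at h3
    rw [mul_pow, div_le_div_iff₀ (by positivity) (by positivity)]
    calc (2 : ℝ) ^ s * (x : ℝ) ^ s * Real.log x ^ U = (x : ℝ) ^ s * ((2 : ℝ) ^ s * Real.log x ^ U) := by ring
      _ ≤ (x : ℝ) ^ s * Real.log x' ^ (U + 1) := mul_le_mul_of_nonneg_left h3 (by positivity)
  · intro T hT hT0 hTp hTE
    obtain ⟨n, rfl, hn⟩ := ex_tp hT.1 hT0 hTp hT.2.2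
    have hmem : n ∈ Fintype.piFinset (fun _ : Fin s => Icc 1 x) := by
      rw [Fintype.mem_piFinset]
      exact hn
    obtain ⟨a0, ha0, hk⟩ : ∃ a0 ∈ Icc 1 x', sh n a0 ∉ Bad := by
      by_contra hcon
      push Not at hcon
      apply hTE
      apply mem_image_of_mem
      rw [hEv]
      exact ⟨hmem, hcon⟩
    rw [mem_Icc] at ha0
    obtain ⟨κ, hκ⟩ : ∃ κ, κ = sh n a0 := ⟨_, rfl⟩
    have hκ0 : κ 0 = a0 := by rw [hκ]; rfl
    have hκs : ∀ j : Fin s, κ j.succ = n j + a0 := by intro j; rw [hκ]; rfl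
    rw [← hκ] at hk
    have hkA : κ ∈ Pool.Agent.Y843.AQ.bx A := by
      unfold Pool.Agent.Y843.AQ.bx
      rw [Fintype.mem_piFinset]
      intro i
      rw [mem_Icc]
      refine Fin.cases ?_ (fun j => ?_) i
      · rw [hκ0, hA0]
        exact ha0
      · have g1 := mem_Icc.1 (hn j)
        rw [hκs, hAs]
        omega
    have hpos : ∀ m ∈ Icc 1 x', ∀ i, 1 ≤ Pool.Agent.H373R2.T7.vl (fun _ : Fin (s + 1) => (X : ℤ[X])) σ κ i m := by
      intro m hm i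
      rw [mem_Icc] at hm
      rw [hvl]
      omega
    have hsys : ∀ (q : ℕ) (m : ℕ), Pool.Agent.H373R2.T7.sysQ (fun _ : Fin (s + 1) => (X : ℤ[X])) σ κ q m ↔
        ∃ t ∈ tp n, (q : ℤ) ∣ ((m + a0 : ℕ) : ℤ) + t := by
      intro q m
      rw [mem_tp n (fun t => (q : ℤ) ∣ ((m + a0 : ℕ) : ℤ) + t)]
      unfold Pool.Agent.H373R2.T7.sysQ
      simp only [hvl]
      rw [Fin.exists_fin_succ]
      have e0 : ((κ 0 : ℕ) : ℤ) + m = ((m + a0 : ℕ) : ℤ) + 0 := by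
        rw [hκ0]
        push_cast
        ring
      have ej : ∀ j : Fin s, ((κ j.succ : ℕ) : ℤ) + m = ((m + a0 : ℕ) : ℤ) + (n j : ℤ) := by
        intro j
        rw [hκs]
        push_cast
        ring
      rw [e0]
      simp only [ej]
    have hadm : ∀ q : ℕ, q.Prime → ∃ m : ℕ,
        ¬ Pool.Agent.H373R2.T7.sysQ (fun _ : Fin (s + 1) => (X : ℤ[X])) σ κ q m := by
      intro q hq
      obtain ⟨u, hu⟩ : ∃ u : ℕ, u % q ∉ Pool.Agent.Y843.AC.HL.ZT (tp n) q := by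
        by_contra hcon
        push Not at hcon
        have h1 : range q ⊆ Pool.Agent.Y843.AC.HL.ZT (tp n) q := by
          intro u hu
          have := hcon u
          rwa [Nat.mod_eq_of_lt (mem_range.1 hu)] at this
        have h2 := card_le_card h1
        rw [card_range, Pool.Agent.Y843.AC.HL.card_ZT (tp n) hq.pos] at h2
        have h3 := hT.2.1 q hq
        have h4 : nu (tp n) q = Pool.Agent.Y843.AC.HL.nu (tp n) q := rfl
        omega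
      refine ⟨u + (q - 1) * a0, ?_⟩
      rw [hsys]
      have e : (((u + (q - 1) * a0 + a0 : ℕ)) : ℤ) = u + q * a0 := by
        have h1 : u + (q - 1) * a0 + a0 = u + q * a0 := by
          obtain ⟨q', hq'⟩ : ∃ q', q = q' + 1 := ⟨q - 1, by have := hq.pos; omega⟩
          rw [hq', Nat.add_sub_cancel]
          ring
        rw [h1]
        push_cast
        ring
      rw [e]
      rintro ⟨t, ht, hd⟩
      apply hu
      rw [Pool.Agent.Y843.AC.HL.mem_ZT hq.pos]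
      refine ⟨t, ht, ?_⟩
      have h2 := dvd_sub hd (dvd_mul_right (q : ℤ) (a0 : ℤ))
      have e2 : (u : ℤ) + q * a0 + t - q * a0 = u + t := by ring
      rwa [e2] at h2
    have hlow := hgood κ hkA hk hpos hadm
    have hnu : ∀ q : ℕ, q.Prime → Pool.Agent.H373R2.T7.nuB (Pool.Agent.H373R2.T7.sysQ
        (fun _ : Fin (s + 1) => (X : ℤ[X])) σ κ) q ≤ (Pool.Agent.Y843.AC.HL.ZT (tp n) q).card := by
      intro q hq
      unfold Pool.Agent.H373R2.T7.nuB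
      apply card_le_card_of_injOn (fun m => (m + a0) % q)
      · intro m hm
        rw [mem_coe, mem_filter, hsys] at hm
        show (m + a0) % q ∈ Pool.Agent.Y843.AC.HL.ZT (tp n) q
        rw [Pool.Agent.Y843.AC.HL.mem_ZT hq.pos]
        exact hm.2
      · intro m hm m' hm' he
        rw [mem_coe, mem_filter, mem_range] at hm hm'
        have h1 : m + a0 ≡ m' + a0 [MOD q] := he
        have h2 : m ≡ m' [MOD q] := Nat.ModEq.add_right_cancel' a0 h1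
        have h3 : m % q = m' % q := h2
        rwa [Nat.mod_eq_of_lt hm.1, Nat.mod_eq_of_lt hm'.1] at h3
    have hV : c₂ * g (tp n) x ≤ ∏ q ∈ Pool.Agent.Y843.AQ.Pz 0 ⌊(x' : ℝ) ^ (1 / 4 : ℝ)⌋₊,
        (1 - (Pool.Agent.H373R2.T7.nuB (Pool.Agent.H373R2.T7.sysQ
          (fun _ : Fin (s + 1) => (X : ℤ[X])) σ κ) q : ℝ) / q) := by
      have h1 : c₂ * g (tp n) x ≤
          Pool.Agent.Y843.HS.VV (Pool.Agent.Y843.AC.HL.ZT (tp n)) 0 ⌊(x' : ℝ) ^ (1 / 4 : ℝ)⌋₊ := by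
        rw [g_eq]
        apply hV₂ x (by omega) (tp n) (tup hT)
        have h6 : (x' : ℝ) ^ (1 / 4 : ℝ) ≤ x := by
          calc (x' : ℝ) ^ (1 / 4 : ℝ) ≤ (x' : ℝ) ^ (1 : ℝ) := by
                apply Real.rpow_le_rpow_of_exponent_le (by exact_mod_cast hx'1)
                norm_num
            _ = x' := Real.rpow_one _
            _ ≤ x := by exact_mod_cast (show x' ≤ x by omega)
        have := Nat.floor_le_floor h6
        rwa [Nat.floor_natCast] at this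
      refine h1.trans ?_
      unfold Pool.Agent.Y843.HS.VV
      apply prod_le_prod
      · intro q hq
        exact Pool.Agent.Y843.HS.one_sub_nonneg
          (Pool.Agent.Y843.AC.HL.ZT_lt (Pool.Agent.Y843.HS.Pr_prime hq).pos)
      · intro q hq
        have hqp := Pool.Agent.Y843.HS.Pr_prime hq
        have hq0 : (0 : ℝ) < q := by exact_mod_cast hqp.pos
        have h2 : (Pool.Agent.H373R2.T7.nuB (Pool.Agent.H373R2.T7.sysQ
          (fun _ : Fin (s + 1) => (X : ℤ[X])) σ κ) q : ℝ) / q ≤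
          ((Pool.Agent.Y843.AC.HL.ZT (tp n) q).card : ℝ) / q :=
          div_le_div_of_nonneg_right (by exact_mod_cast hnu q hqp) hq0.le
        linarith
    have hcnt : Pool.Agent.H373R2.T7.prCount (fun _ : Fin (s + 1) => (X : ℤ[X])) σ κ x' ≤ (P (tp n) 0 x).card := by
      unfold Pool.Agent.H373R2.T7.prCount
      apply card_le_card_of_injOn (fun m => m + a0)
      · intro m hm
        rw [mem_coe, mem_filter, mem_Icc] at hm
        obtain ⟨⟨m1, m2⟩, m3⟩ := hm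
        show m + a0 ∈ P (tp n) 0 x
        unfold P
        rw [mem_filter, mem_Ioc]
        refine ⟨by omega, ?_⟩
        by_contra hcon
        push Not at hcon
        rw [mem_tp n (fun t => ¬ (((m + a0 : ℕ) : ℤ) + t).natAbs.Prime)] at hcon
        rcases hcon with h1 | ⟨j, h1⟩
        · apply h1
          have h2 := m3 0
          rw [hvl, hκ0] at h2
          have e : ((a0 : ℤ) + (m : ℤ)).toNat = (((m + a0 : ℕ) : ℤ) + 0).natAbs := by omega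
          rwa [e] at h2
        · apply h1
          have h2 := m3 j.succ
          rw [hvl, hκs] at h2
          have e : (((n j + a0 : ℕ) : ℤ) + (m : ℤ)).toNat = (((m + a0 : ℕ) : ℤ) + (n j : ℤ)).natAbs := by omega
          rwa [e] at h2
      · intro m _ m' _ he
        have : m + a0 = m' + a0 := he
        omega
    have hgn : 0 ≤ g (tp n) x := (Pool.Agent.Y843.AC.HL.gg_pos (by omega) (tup hT)).le
    have hx3' : (x : ℝ) ≤ 3 * x' := by exact_mod_cast hx3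
    calc c * c₂ / 3 * (x * g (tp n) x) = c * c₂ / 3 * g (tp n) x * x := by ring
      _ ≤ c * c₂ / 3 * g (tp n) x * (3 * x') := mul_le_mul_of_nonneg_left hx3' (by positivity)
      _ = c * x' * (c₂ * g (tp n) x) := by ring
      _ ≤ _ := mul_le_mul_of_nonneg_left hV (by positivity)
      _ ≤ _ := hlow
      _ ≤ _ := by exact_mod_cast hcnt

/-- (1) -/
theorem average (r k : ℕ) (hr : 1 ≤ r) (hk : 1 ≤ k) : ∃ c C : ℝ, 0 < c ∧ 0 < C ∧ ∃ B : ℕ, ∀ U : ℕ, ∃ x₀ : ℕ,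
    ∀ x : ℕ, x₀ ≤ x →
    ∃ Ex : Finset (Finset ℤ), (Ex.card : ℝ) ≤ (x : ℝ) ^ (r - 1) / Real.log x ^ U ∧
      ∀ T ∈ Tuples r x, (0 : ℤ) ∈ T → (∀ t ∈ T, 0 ≤ t) → T ∉ Ex →
        c * (x * g T x) ≤ (P T 0 x).card ∧ ExactOrder k B c C x T := by
  classical
  obtain ⟨s, rfl⟩ : ∃ s : ℕ, r = s + 1 := ⟨r - 1, by omega⟩
  obtain ⟨δ, hδ, h⟩ := average_low s
  obtain ⟨c, hc, B, n₁, h1⟩ := dn (s + 1) k hk 1 1 δ le_rfl one_pos hδ
  obtain ⟨C, hC, B', n₂, h2⟩ := up (s + 1) k hk 1 1 le_rfl one_pos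
  refine ⟨min δ c, C, lt_min hδ hc, hC, max B B', fun U => ?_⟩
  obtain ⟨n₀, h0⟩ := h U
  refine ⟨max (max n₀ 3) (max n₁ n₂), fun x hx => ?_⟩
  obtain ⟨Ex, hE, h3⟩ := h0 x (by omega)
  refine ⟨Ex, by rwa [Nat.add_sub_cancel], fun T hT hT0 hTp hTE => ?_⟩
  have hl := Pool.Agent.Y843.AC.HL.log_one (show 3 ≤ x by omega)
  have hg : 0 ≤ g T x := (Pool.Agent.Y843.AC.HL.gg_pos (by omega) (tup hT)).le
  have h4 := h3 T hT hT0 hTp hTE
  refine ⟨le_trans (mul_le_mul_of_nonneg_right (min_le_left _ _) (by positivity)) h4, fun D hD hDx => ⟨?_, ?_⟩⟩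
  · refine le_trans ?_ ((h1 x (by omega) T hT 0 x D le_rfl (full _)
      ((pow_le_pow_right₀ hl (le_max_left _ _)).trans hD) (by simpa using hDx) _ (P_sub _ _ _)
      (P_R _ _ _ _ _)).1 (by simpa using h4))
    apply mul_le_mul_of_nonneg_right (min_le_right _ _)
    unfold E
    rw [Nat.cast_zero, sub_zero]
    positivity
  · exact h2 x (by omega) T hT 0 x D le_rfl (full _)
      ((pow_le_pow_right₀ hl (le_max_right _ _)).trans hD) _ (P_sub _ _ _) (P_R _ _ _ _ _)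

open Classical in
/-- Let `𝔖(T) = Sing T` be the singular series (the product converges). Let `k ≥ 1`, `r ≥ 0`. `T` is an
admissible set of `r` integers, `T ⊆ [-x, x]`, and all statements are uniform in `T`; `g = 𝔖(T) / log ^ r x`,
`E = (y₂ - y₁) D g ^ k`; windows `(y₁, y₂]` are contained in `(0, x]`.

1. (the last assertion of the theorem) Let `r ≥ 1`. All admissible `T ⊆ [0, x]` of `r` elements with `0 ∈ T`, outside of a set of at most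
  `x ^ (r - 1) / log ^ U x` of them (`U` is arbitrary, the constants `c`, `C`, `B` do not depend on it), satisfy: the
  number of the `n ≤ x` with all `n + t` prime is at least `c x g`, and the number of the progressions of `k` of
  them with differences at most `D` is between `c x D g ^ k` and `C x D g ^ k`, for all `D` in `[log ^ B x, x]`.
2. There is `j = j(r)` such that for all `θ > 0`, all sufficiently large `x`, all `T ∋ 0`, `h ∈ T`, `h ≠ 0`,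
  all windows of a length of at least `θ x` and all `D` between `log ^ B x` and this length, the number of the
  progressions of `k` terms, with differences at most `D`, of primes `n` in the window for which `n + h` is
  (up to the sign) a product of at most two primes `> x ^ (1/9)` and all `n + t` are products of at most `j`
  primes `> x ^ (1/j)`, is between `c E` and `C E`.
3. Let `S` be a set of `n` in a window of a length of at least `x ^ θ` such that all `n + t`, `t ∈ T`, are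
  prime, or have no prime factor `≤ x ^ (1/u)`. `S` has at most `C E` progressions of `k` terms with
  differences at most `D ≥ log ^ B x`; and for every `δ > 0`, if `D ≤ y₂ - y₁`, it has at least `c E` of them if it
  has at least `δ (y₂ - y₁) g` elements, and conversely it has at least `c (y₂ - y₁) g` elements if it has
  at least `δ E` of these progressions. All elements of `S` but `δ (y₂ - y₁) g` lie in progressions of `k`
  elements of `S` with differences at most `log ^ B x`.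
4. For every family `M` of pairs `(x, T)`: the number of the `n ≤ x` with all `n + t` prime is `≫ x g` on
  `M` if and only if the number of the progressions of `k` of them with differences at most `D` is of the
  order `x D g ^ k` for all `D` between a power of `log x` and `x`; and if and only if it is `≫ x D g ^ k` for a
  single `D` for every pair of `M`.
5. Let `r ≥ 2` and `ε, lam > 0`. For every set `A ⊆ [0, log ^ L x]` of at least `lam (φ(q)/q) log x` integers in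
  one class modulo `q`, the sets `T ⊆ A` of `r` elements for which the number of the progressions of `k`
  numbers `n ≤ x` with all `n + t` prime, with differences at most `D`, is of the order `x D g ^ k` for all `D`
  between `log ^ B x` and `x`, have at least the proportion `4 ^ (1 - r) - ε` of `∑ 𝔖(T)`. -/
theorem result (r : ℕ) :
    (∀ T : Finset ℤ, HasProd (fun q : Nat.Primes => loc T q) (Sing T)) ∧
    (∃ j : ℕ, 1 ≤ j ∧ ∀ k : ℕ, 1 ≤ k → ∃ c C : ℝ, 0 < c ∧ 0 < C ∧ ∃ B : ℕ,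
      ∀ θ : ℝ, 0 < θ → ∃ x₀ : ℕ, ∀ x : ℕ, x₀ ≤ x → ∀ T ∈ Tuples r x, (0 : ℤ) ∈ T → ∀ h ∈ T, h ≠ 0 →
        ∀ y₁ y₂ D : ℕ, y₂ ≤ x → θ * x ≤ (y₂ : ℝ) - y₁ → Real.log x ^ B ≤ D → (D : ℝ) ≤ (y₂ : ℝ) - y₁ →
          c * E k x T y₁ y₂ D ≤ AP k D (Chen j x T h y₁ y₂) ∧
            (AP k D (Chen j x T h y₁ y₂) : ℝ) ≤ C * E k x T y₁ y₂ D) ∧
    ∀ k : ℕ, 1 ≤ k →
      (∀ (u : ℕ) (θ : ℝ), 1 ≤ u → 0 < θ →
        (∃ C : ℝ, 0 < C ∧ ∃ B x₀ : ℕ, ∀ x : ℕ, x₀ ≤ x → ∀ T ∈ Tuples r x, ∀ y₁ y₂ D : ℕ, y₂ ≤ x →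
          (x : ℝ) ^ θ ≤ (y₂ : ℝ) - y₁ → Real.log x ^ B ≤ D → ∀ S : Finset ℕ, S ⊆ Ioc y₁ y₂ →
          (∀ n ∈ S, R u x T n) → (AP k D S : ℝ) ≤ C * E k x T y₁ y₂ D) ∧
        (∀ δ : ℝ, 0 < δ → ∃ c : ℝ, 0 < c ∧ ∃ B x₀ : ℕ, ∀ x : ℕ, x₀ ≤ x → ∀ T ∈ Tuples r x,
          ∀ y₁ y₂ D : ℕ, y₂ ≤ x → (x : ℝ) ^ θ ≤ (y₂ : ℝ) - y₁ → Real.log x ^ B ≤ D →
          (D : ℝ) ≤ (y₂ : ℝ) - y₁ → ∀ S : Finset ℕ, S ⊆ Ioc y₁ y₂ → (∀ n ∈ S, R u x T n) →
          (δ * (((y₂ : ℝ) - y₁) * g T x) ≤ S.card → c * E k x T y₁ y₂ D ≤ AP k D S) ∧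
          (δ * E k x T y₁ y₂ D ≤ AP k D S → c * (((y₂ : ℝ) - y₁) * g T x) ≤ S.card)) ∧
        (∀ δ : ℝ, 0 < δ → ∃ B x₀ : ℕ, ∀ x : ℕ, x₀ ≤ x → ∀ T ∈ Tuples r x, ∀ y₁ y₂ : ℕ, y₂ ≤ x →
          (x : ℝ) ^ θ ≤ (y₂ : ℝ) - y₁ → ∀ S : Finset ℕ, S ⊆ Ioc y₁ y₂ → (∀ n ∈ S, R u x T n) →
          ((outside k (Real.log x ^ B) S).card : ℝ) ≤ δ * (((y₂ : ℝ) - y₁) * g T x))) ∧
      (∀ M : Set (ℕ × Finset ℤ), (∀ q ∈ M, q.2 ∈ Tuples r q.1) →
        ((∃ c : ℝ, 0 < c ∧ ∃ x₀ : ℕ, ∀ q ∈ M, x₀ ≤ q.1 → c * (q.1 * g q.2 q.1) ≤ (P q.2 0 q.1).card) ↔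
          ∃ c C : ℝ, 0 < c ∧ 0 < C ∧ ∃ B x₀ : ℕ, ∀ q ∈ M, x₀ ≤ q.1 → ExactOrder k B c C q.1 q.2) ∧
        ((∃ c : ℝ, 0 < c ∧ ∃ x₀ : ℕ, ∀ q ∈ M, x₀ ≤ q.1 → c * (q.1 * g q.2 q.1) ≤ (P q.2 0 q.1).card) ↔
          ∃ c : ℝ, 0 < c ∧ ∀ B : ℕ, ∃ x₀ : ℕ, ∀ q ∈ M, x₀ ≤ q.1 → ∃ D : ℕ, Real.log q.1 ^ B ≤ D ∧
            D ≤ q.1 ∧ c * E k q.1 q.2 0 q.1 D ≤ AP k D (P q.2 0 q.1))) ∧
      (2 ≤ r → ∀ ε lam : ℝ, 0 < ε → 0 < lam → ∃ c C : ℝ, 0 < c ∧ 0 < C ∧ ∃ B : ℕ, ∀ q : ℕ, 1 ≤ q →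
        ∀ L : ℝ, ∃ x₀ : ℕ, ∀ x : ℕ, x₀ ≤ x → ∀ (a : ℤ) (A : Finset ℤ), (∀ b ∈ A, b ≡ a [ZMOD q]) →
        (∀ b ∈ A, 0 ≤ b ∧ (b : ℝ) ≤ Real.log x ^ L) →
        lam * ((Nat.totient q : ℝ) / q) * Real.log x ≤ A.card →
          ((1 / 4 : ℝ) ^ (r - 1) - ε) * ∑ T ∈ A.powersetCard r, Sing T ≤
            ∑ T ∈ (A.powersetCard r).filter (fun T => ExactOrder k B c C x T), Sing T) ∧
      (1 ≤ r → ∃ c C : ℝ, 0 < c ∧ 0 < C ∧ ∃ B : ℕ, ∀ U : ℕ, ∃ x₀ : ℕ, ∀ x : ℕ, x₀ ≤ x →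
        ∃ Ex : Finset (Finset ℤ), (Ex.card : ℝ) ≤ (x : ℝ) ^ (r - 1) / Real.log x ^ U ∧
          ∀ T ∈ Tuples r x, (0 : ℤ) ∈ T → (∀ t ∈ T, 0 ≤ t) → T ∉ Ex →
            c * (x * g T x) ≤ (P T 0 x).card ∧ ExactOrder k B c C x T) := by
  refine ⟨fun T => Pool.Agent.Y843.AC.HL.Sing_hasProd T, chen r, fun k hk => ⟨fun u θ hu hθ =>
    ⟨up r k hk u θ hu hθ, fun δ hδ => dn r k hk u θ δ hu hθ hδ, fun δ hδ => her r k hk u θ δ hu hθ hδ⟩,
    fun M hM => order r k hk M hM, fun hr ε lam hε hlam => quarter r k hr hk ε lam hε hlam,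
    fun hr => average r k hr hk⟩⟩

end Pool.Agent.Results.MP_e87c7d_nt.ProgressionsOfPrimeTuples
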