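import Mathlib
import Pool.Agent.Y877.RoI

/-!
# In almost every direction a positive proportion of the tuples is realised as often as predicted,
# up to a constant

For every `k ≥ 1` there are `L` and `c > 0` such that for all `ε, lam > 0` there is a `κ > 0` with the
following property: for large `N` and every `E ≥ L`, in every box of side `H ≥ lam log N` all but at
most `ε H ^ k` of the vectors `h` have at least `c E` multiples `e q h`, `1 ≤ e ≤ E`, for which
`0, e q h_1, ..., e q h_k` is an admissible pattern realised by at least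
`κ 𝔖 N / (log N) ^ (k + 1)` integers `n ≤ N`.
-/

set_option autoImplicit false

open Finset

namespace Pool.Agent.Results.MP_e87c7d_nt.RightOrderMultiples

/-- the number of `1 ≤ n ≤ N` for which all `n + t`, `t ∈ T`, are prime -/
def count (N : ℕ) (T : Finset ℕ) : ℕ := ((Icc 1 N).filter (fun n => ∀ t ∈ T, (n + t).Prime)).card

/-- the number of residue classes modulo `p` occupied by `T` -/
def nu (T : Finset ℕ) (p : ℕ) : ℕ := (T.image (· % p)).card

/-- the factor at `p` of the singular series of `T` -/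
noncomputable def loc (T : Finset ℕ) (p : ℕ) : ℝ :=
  (1 - (nu T p : ℝ) / p) / (1 - 1 / (p : ℝ)) ^ T.card

/-- `T` is a set of `k + 1` shifts, its singular series converges to some `S > 0`, and at least
`κ S N / (log N) ^ (k + 1)` integers `n ≤ N` have all `n + t`, `t ∈ T`, prime -/
def RightOrder (κ : ℝ) (k N : ℕ) (T : Finset ℕ) : Prop :=
  T.card = k + 1 ∧ ∃ S : ℝ, 0 < S ∧ HasProd (fun p : Nat.Primes => loc T p) S ∧
    κ * S * (N / Real.log N ^ (k + 1)) ≤ count N T

/-- the pattern `0, d h_1, ..., d h_k` -/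
def pattern {k : ℕ} (d : ℕ) (h : Fin k → ℕ) : Finset ℕ := insert 0 (univ.image (fun l => d * h l))

open Pool.Agent.H387R2.Uni Pool.Agent.Y877.RO

theorem good {κ : ℝ} {k N : ℕ} {T : Finset ℕ} (h : GoodP κ k N T) : RightOrder κ k N T := by
  obtain ⟨h1, h2, h3⟩ := h
  refine ⟨h1, CT T, ?_, CT_hasProd T, h3⟩
  rw [← CT_en]
  apply Pool.Agent.H386R2.HL.singularSeries_pos (en_inj T)
  intro p hp
  rw [nu_en]
  exact h2 p hp

open Classical in
theorem result : ∀ k : ℕ, 1 ≤ k → ∃ (L : ℕ) (c : ℝ), 0 < c ∧ ∀ ε lam : ℝ, 0 < ε → 0 < lam → ∃ κ : ℝ, 0 < κ ∧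
    ∀ C : ℝ, ∃ N₀ : ℕ, ∀ N : ℕ, N₀ ≤ N → ∀ q : ℕ, 1 ≤ q → ∀ E : ℕ, L ≤ E → ∀ (H : ℕ) (u : Fin k → ℕ),
    lam * Real.log N ≤ H → (∀ l, (q : ℝ) * E * (u l + H) ≤ Real.log N ^ C) →
    (1 - ε) * (H : ℝ) ^ k ≤ (((Fintype.piFinset (fun l => Ioc (u l) (u l + H))).filter (fun h =>
      c * E ≤ (((Icc 1 E).filter (fun e => RightOrder κ k N (pattern (e * q) h))).card : ℝ))).card : ℝ) := by
  intro k hk
  obtain ⟨L, c, hc, hL⟩ := propMult k hk
  refine ⟨L, c, hc, fun ε lam hε hlam => ?_⟩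
  obtain ⟨κ, hκ, h⟩ := hL ε lam hε hlam
  refine ⟨κ, hκ, fun C => ?_⟩
  obtain ⟨N₀, hN₀⟩ := Filter.eventually_atTop.1 (h C)
  refine ⟨N₀, fun N hN q hq E hE H u hH hu => ?_⟩
  refine (hN₀ N hN q hq E hE H u hH hu).trans ?_
  apply Nat.cast_le.2
  apply card_le_card
  intro v hv
  rw [mem_filter] at hv ⊢
  refine ⟨hv.1, hv.2.trans ?_⟩
  apply Nat.cast_le.2
  apply card_le_card
  intro e he
  rw [mem_filter] at he ⊢
  exact ⟨he.1, good he.2⟩

end Pool.Agent.Results.MP_e87c7d_nt.RightOrderMultiples
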